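import Mathlib

set_option autoImplicit false

namespace Pool.Agent.H.MP_5cf697_lc

open FirstOrder FirstOrder.Language

def Rows {α β : Type} (P : α → β → Prop) : Prop := (Set.range P).Finite

variable {α β γ δ : Type}

theorem Rows.comp {P : α → β → Prop} (h : Rows P) (f : γ → α) (g : δ → β) :
    Rows fun a b => P (f a) (g b) :=
  (h.image fun R b => R (g b)).subset (by rintro _ ⟨a, rfl⟩; exact ⟨_, ⟨f a, rfl⟩, rfl⟩)

theorem Rows.imp {P Q : α → β → Prop} (h : Rows P) (h' : Rows Q) : Rows fun a b => P a b → Q a b :=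
  (h.image2 (fun R S b => R b → S b) h').subset (by
    rintro _ ⟨a, rfl⟩; exact ⟨_, ⟨a, rfl⟩, _, ⟨a, rfl⟩, rfl⟩)

theorem Rows.all {P : α × γ → β × δ → Prop} (h : Rows P) :
    Rows fun a b => ∀ x y, P (a, x) (b, y) :=
  (h.finite_subsets.image fun S b => ∀ R ∈ S, ∀ y, R (b, y)).subset (by
    rintro _ ⟨a, rfl⟩
    exact ⟨Set.range fun x => P (a, x), by rintro _ ⟨x, rfl⟩; exact ⟨_, rfl⟩, by ext; simp⟩)

theorem rows_box (p : α → Prop) (q : β → Prop) : Rows fun a b => p a ∧ q b :=
  ((Set.finite_singleton q).insert fun _ => False).subset (by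
    rintro _ ⟨a, rfl⟩
    by_cases h : p a <;> simp [h])

theorem rows_false : Rows fun (_ : α) (_ : β) => False := by
  simpa using rows_box (fun _ : α => False) fun _ : β => False

theorem Rows.not {P : α → β → Prop} (h : Rows P) : Rows fun a b => ¬ P a b := h.imp rows_false

theorem Rows.and {P Q : α → β → Prop} (h : Rows P) (h' : Rows Q) :
    Rows fun a b => P a b ∧ Q a b := by simpa using (h.imp h'.not).not

theorem Rows.ex {P : α × γ → β × δ → Prop} (h : Rows P) :
    Rows fun a b => ∃ x y, P (a, x) (b, y) := by simpa using h.not.all.not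

theorem rows_fall {ι : Type} [Finite ι] {P : ι → α → β → Prop} (h : ∀ i, Rows (P i)) :
    Rows fun a b => ∀ i, P i a b :=
  ((Set.Finite.pi' h).image fun R b => ∀ i, R i b).subset (by
    rintro _ ⟨a, rfl⟩; exact ⟨fun i => P i a, fun i => ⟨a, rfl⟩, rfl⟩)

theorem rows_fex {ι : Type} [Finite ι] {P : ι → α → β → Prop} (h : ∀ i, Rows (P i)) :
    Rows fun a b => ∃ i, P i a b := by simpa using (rows_fall fun i => (h i).not).not

variable {L : FirstOrder.Language.{0, 0}} {M : Type} [L.Structure M] {mx : M → M → M}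

theorem term_mk (h1 : ∀ n (f : L.Functions n) (x y : Fin n → M),
    mx (Structure.funMap f x) (Structure.funMap f y) = Structure.funMap f fun i => mx (x i) (y i))
    (t : L.Term α) (a b : α → M) :
    t.realize (fun i => mx (a i) (b i)) = mx (t.realize a) (t.realize b) := by
  induction t with
  | var => rfl
  | func f ts ih => simp [h1, ih]

theorem rows_formula [Inhabited M] (hr : ∀ n, IsEmpty (L.Relations n))
    (h1 : ∀ n (f : L.Functions n) (x y : Fin n → M),
    mx (Structure.funMap f x) (Structure.funMap f y) = Structure.funMap f fun i => mx (x i) (y i))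
    (h2 : ∀ x, mx x x = x) (h3 : ∀ x y z w, mx (mx x y) (mx z w) = mx x w) {n : ℕ}
    (φ : L.BoundedFormula α n) : Rows fun (a b : (α → M) × (Fin n → M)) =>
      φ.Realize (fun i => mx (a.1 i) (b.1 i)) fun i => mx (a.2 i) (b.2 i) := by
  induction φ with
  | falsum => exact rows_false
  | equal t1 t2 =>
    convert rows_box (fun a : (α → M) × (_ → M) => mx (t1.realize (Sum.elim a.1 a.2)) default =
      mx (t2.realize (Sum.elim a.1 a.2)) default) (fun a : (α → M) × (_ → M) =>
      mx default (t1.realize (Sum.elim a.1 a.2)) = mx default (t2.realize (Sum.elim a.1 a.2)))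
      using 3 with a b
    have : Sum.elim (fun i => mx (a.1 i) (b.1 i)) (fun i => mx (a.2 i) (b.2 i)) =
      fun i => mx (Sum.elim a.1 a.2 i) (Sum.elim b.1 b.2 i) := by ext (i | i) <;> rfl
    simp only [BoundedFormula.Realize, this, term_mk h1]
    refine ⟨fun e => ⟨?_, ?_⟩, fun ⟨e1, e2⟩ => ?_⟩
    · rw [← h3 _ _ default, e, h3]
    · rw [← h3 default default _, e, h3]
    · rw [← h3 _ default default, e1, e2, h3]
  | rel R => exact (hr _).elim R
  | imp _ _ a b => exact a.imp b
  | @all n φ ih =>
    convert (ih.comp (fun a : ((α → M) × (Fin n → M)) × M => (a.1.1, Fin.snoc a.1.2 a.2))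
      (fun a : ((α → M) × (Fin n → M)) × M => (a.1.1, Fin.snoc a.1.2 a.2))).all using 3 with a b
    have : ∀ x y, (fun i => mx (Fin.snoc (α := fun _ => M) a.2 x i) (Fin.snoc (α := fun _ => M) b.2 y i)) =
        Fin.snoc (fun i => mx (a.2 i) (b.2 i)) (mx x y) := by
      intro x y; ext i; refine Fin.lastCases ?_ (fun i => ?_) i <;> simp
    simp only [BoundedFormula.realize_all, this]
    exact ⟨fun h x y => h _, fun h x => by simpa [h2] using h x x⟩

theorem rows_def [Inhabited M] (hr : ∀ n, IsEmpty (L.Relations n))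
    (h1 : ∀ n (f : L.Functions n) (x y : Fin n → M),
    mx (Structure.funMap f x) (Structure.funMap f y) = Structure.funMap f fun i => mx (x i) (y i))
    (h2 : ∀ x, mx x x = x) (h3 : ∀ x y z w, mx (mx x y) (mx z w) = mx x w) {s : Set (α → M)}
    (hs : (Set.univ : Set M).Definable L s) :
    Rows fun a b : α → M => (fun i => mx (a i) (b i)) ∈ s := by
  obtain ⟨φ, rfl⟩ := Set.definable_iff_exists_formula_sum.1 hs
  have e : ∀ a b : α → M, (Sum.elim Subtype.val (fun i => mx (a i) (b i)) : (Set.univ : Set M) ⊕ α → M)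
      = fun i => mx (Sum.elim Subtype.val a i) (Sum.elim Subtype.val b i) := by
    intro a b; ext (i | i) <;> simp [h2]
  have := (rows_formula hr h1 h2 h3 φ).comp (fun a : α → M => (Sum.elim Subtype.val a, default))
    (fun a : α → M => (Sum.elim Subtype.val a, default))
  simp only [h2] at this
  simp only [Set.mem_setOf_eq, Formula.Realize, e]
  exact this.subset (by rintro _ ⟨a, rfl⟩; exact ⟨a, funext fun b => congrArg _ (Subsingleton.elim _ _)⟩)

theorem no_order {R : M → M → Prop} (hR : Rows fun a b : M × M => R (mx a.1 b.1) (mx a.2 b.2))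
    (tot : ∀ x y, R x y ∨ R y x) (fin : ∀ y, {x | R x y}.Finite) (o : M) (u v : ℕ → M)
    (hu : Function.Injective fun n => mx (u n) o) (hv : Function.Injective fun n => mx o (v n)) :
    False := by
  have h := ((hR.comp (fun n => (o, u n)) fun n => (v n, o)).prod
    (hR.comp (fun n => (u n, o)) fun n => (o, v n))).subset
    (t := Set.range fun n => (fun k => R (mx o (v k)) (mx (u n) o), fun k => R (mx (u n) o) (mx o (v k))))
    (by rintro _ ⟨n, rfl⟩; exact ⟨⟨n, rfl⟩, ⟨n, rfl⟩⟩)
  have := h.to_subtype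
  obtain ⟨⟨_, n, rfl⟩, hn⟩ := Finite.exists_infinite_fiber (Set.rangeFactorization
    fun n => (fun k => R (mx o (v k)) (mx (u n) o), fun k => R (mx (u n) o) (mx o (v k))))
  have a : ∀ k, ¬ R (mx (u n) o) (mx o (v k)) := fun k hk =>
    Set.infinite_coe_iff.1 hn (((fin (mx o (v k))).preimage hu.injOn).subset fun m hm => by
      have := congrFun (congrArg Prod.snd (Subtype.ext_iff.1 hm)) k
      exact this.mpr hk)
  exact Set.infinite_univ (((fin (mx (u n) o)).preimage hv.injOn).subset
    fun k _ => (tot _ _).resolve_right (a k))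

end Pool.Agent.H.MP_5cf697_lc
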