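import Mathlib

set_option autoImplicit false

namespace Pool.Agent.H.MP_5cf697_lc

open scoped commutatorElement

abbrev R := AddMonoidAlgebra ℤ (ℤ × ℤ)

noncomputable def X (g : ℤ × ℤ) : R := AddMonoidAlgebra.single g 1

theorem X_add (g h : ℤ × ℤ) : X (g + h) = X g * X h := by
  simp [X, AddMonoidAlgebra.single_mul_single]

theorem X_zero : X 0 = 1 := rfl

theorem X_inj {g h : ℤ × ℤ} (e : X g = X h) : g = h :=
  AddMonoidAlgebra.single_left_injective one_ne_zero e

@[ext] structure W where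
  g : ℤ × ℤ
  m : R

noncomputable instance : Group W where
  mul x y := ⟨x.g + y.g, x.m + X x.g * y.m⟩
  one := ⟨0, 0⟩
  inv x := ⟨-x.g, -(X (-x.g) * x.m)⟩
  mul_assoc x y z := W.ext (add_assoc _ _ _) (by
    show x.m + X x.g * y.m + X (x.g + y.g) * z.m = x.m + X x.g * (y.m + X y.g * z.m)
    rw [X_add]; ring)
  one_mul x := W.ext (zero_add _) (by show 0 + X 0 * x.m = x.m; simp [X_zero])
  mul_one x := W.ext (add_zero _) (by show x.m + X x.g * 0 = x.m; simp)
  inv_mul_cancel x := W.ext (neg_add_cancel _) (neg_add_cancel _)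

@[simp] theorem mul_g (x y : W) : (x * y).g = x.g + y.g := rfl
@[simp] theorem mul_m (x y : W) : (x * y).m = x.m + X x.g * y.m := rfl
@[simp] theorem inv_g (x : W) : x⁻¹.g = -x.g := rfl
@[simp] theorem inv_m (x : W) : x⁻¹.m = -(X (-x.g) * x.m) := rfl
@[simp] theorem one_g : (1 : W).g = 0 := rfl
@[simp] theorem one_m : (1 : W).m = 0 := rfl

theorem comm_g (x y : W) : ⁅x, y⁆.g = 0 := by simp [commutatorElement_def]

theorem comm0 {x y : W} (hx : x.g = 0) (hy : y.g = 0) : Commute x y :=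
  W.ext (by simp [hx, hy]) (by simp [hx, hy, X_zero, add_comm])

theorem W_mb (x y z w : W) : ⁅⁅x, y⁆, ⁅z, w⁆⁆ = 1 :=
  (comm0 (comm_g _ _) (comm_g _ _)).commutator_eq

theorem conj_m (u : W) {k : W} (hk : k.g = 0) : (u * k * u⁻¹).m = X u.g * k.m := by
  simp [hk, ← mul_assoc, ← X_add, X_zero]

noncomputable def gH : W →* Multiplicative (ℤ × ℤ) := MonoidHom.mk' (fun x => .ofAdd x.g) fun _ _ => rfl

theorem zpow_g (x : W) (i : ℤ) : (x ^ i).g = i • x.g := congrArg Multiplicative.toAdd (map_zpow gH x i)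

noncomputable def α : W := ⟨(1, 0), 1⟩
noncomputable def β : W := ⟨(0, 1), 0⟩

theorem Y_ne : 1 - X (0, 1) ≠ 0 := fun h =>
  absurd (X_inj (X_zero.trans (sub_eq_zero.1 h))) (by decide)

theorem comm_m : ⁅α, β⁆.m = 1 - X (0, 1) := by
  simp [commutatorElement_def, α, β, ← X_add, sub_eq_add_neg]

theorem W_center {z : W} (ha : Commute z α) (hb : Commute z β) : z = 1 := by
  have h1 := congrArg W.m hb.eq
  have h2 := congrArg W.m ha.eq
  simp only [mul_m, α, β] at h1 h2
  have h3 : z.m = 0 := (mul_eq_zero.1 (by linear_combination h1)).resolve_left Y_ne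
  exact W.ext (X_inj (by rw [one_g, X_zero]; rw [h3] at h2; linear_combination h2)) h3

theorem magnus {G : Type} [Group G] (hm : ∀ x y z w : G, ⁅⁅x, y⁆, ⁅z, w⁆⁆ = 1) {a b : G}
    (hg : Subgroup.closure {a, b} = ⊤) (ρ : G →* W) (ha : ρ a = α) (hb : ρ b = β) {z : G}
    (hz : ρ z = 1) : z = 1 := by
  have cm : ∀ x ∈ commutator G, ∀ y ∈ commutator G, x * y = y * x := by
    rw [commutator_eq_closure]
    intro x hx y hy
    refine Subgroup.closure_le_centralizer_centralizer _ hy x ?_ |>.symm.symm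
    refine Subgroup.mem_centralizer_iff.2 fun s hs => ?_
    refine (Subgroup.closure_le_centralizer_centralizer _ hx s ?_)
    obtain ⟨_, _, rfl⟩ := hs
    rintro _ ⟨_, _, rfl⟩
    exact commutatorElement_eq_one_iff_mul_comm.1 (hm _ _ _ _)
  have nf : ∀ g : G, ∃ d ∈ commutator G, ∃ i j : ℤ, g = d * (a ^ i * b ^ j) := fun g => by
    have : Abelianization.of g ∈ (Subgroup.closure {a, b}).map Abelianization.of :=
      ⟨g, by simp [hg], rfl⟩
    rw [MonoidHom.map_closure, Set.image_pair, Subgroup.mem_closure_pair] at this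
    obtain ⟨i, j, e⟩ := this
    refine ⟨g * (a ^ i * b ^ j)⁻¹, ?_, i, j, by group⟩
    rw [← Abelianization.ker_of, MonoidHom.mem_ker]
    simp [← e]
  have g0 : ∀ d ∈ commutator G, (ρ d).g = 0 := fun d hd =>
    congrArg Multiplicative.toAdd (Abelianization.commutator_subset_ker (gH.comp ρ) hd)
  have g1 : ∀ i j : ℤ, (ρ (a ^ i * b ^ j)).g = (i, j) := fun i j => by
    simp [zpow_g, ha, hb, α, β]
  have hc : ⁅a, b⁆ ∈ commutator G := Subgroup.commutator_mem_commutator trivial trivial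
  let _ : CommGroup (commutator G) :=
    { (inferInstance : Group (commutator G)) with mul_comm := fun x y => Subtype.ext (cm _ x.2 _ y.2) }
  let gen : ℤ × ℤ → commutator G := fun p => ⟨a ^ p.1 * b ^ p.2 * ⁅a, b⁆ * (a ^ p.1 * b ^ p.2)⁻¹,
    Subgroup.Normal.conj_mem inferInstance _ hc _⟩
  let θ : R →+ Additive (commutator G) := (Finsupp.liftAddHom fun p =>
    zmultiplesHom _ (Additive.ofMul (gen p))).comp AddMonoidAlgebra.coeffAddEquiv.toAddMonoidHom
  have t1 : ∀ p, θ (X p) = Additive.ofMul (gen p) := fun p => by simp [θ, X]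
  let φ : Additive (commutator G) →+ R := AddMonoidHom.mk' (fun k => (ρ k.toMul).m) fun x y => by
    simp [g0 _ x.toMul.2, X_zero]
  have t2 : φ.comp θ = AddMonoidHom.mulRight (1 - X (0, 1)) := by
    refine AddMonoidAlgebra.addHom_ext' fun p => AddMonoidHom.ext_int ?_
    show φ (θ (X p)) = X p * _
    rw [t1]
    show (ρ (_ * _ * _)).m = _
    rw [map_mul, map_mul ρ _ ⁅a, b⁆, map_inv, conj_m _ (g0 _ hc), g1, map_commutatorElement, ha, hb,
      comm_m]
  let K : Subgroup G := θ.toMultiplicativeLeft.range.map (commutator G).subtype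
  have k1 : Subgroup.normalClosure {⁅a, b⁆} ≤ K := by
    refine (Subgroup.closure_le _).2 fun x hx => ?_
    obtain ⟨_, rfl, hx⟩ := Group.mem_conjugatesOfSet_iff.1 hx
    obtain ⟨g, rfl⟩ := isConj_iff.1 hx
    obtain ⟨d, hd, i, j, rfl⟩ := nf g
    refine ⟨gen (i, j), ⟨.ofAdd (X (i, j)), congrArg Additive.toMul (t1 _)⟩, ?_⟩
    have := cm d hd _ (gen (i, j)).2
    rw [Subgroup.coe_subtype, ← mul_inv_cancel_right (gen (i, j) : G) d, ← this]
    simp [gen, mul_assoc]
  have k2 : commutator G ≤ Subgroup.normalClosure {⁅a, b⁆} := by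
    rw [← Subgroup.Normal.quotient_commutative_iff_commutator_le]
    let π := QuotientGroup.mk' (Subgroup.normalClosure {⁅a, b⁆})
    have e : π a * π b = π b * π a := by
      rw [← commutatorElement_eq_one_iff_mul_comm, ← map_commutatorElement]
      exact (QuotientGroup.eq_one_iff _).2 (Subgroup.subset_normalClosure rfl)
    have e2 : Subgroup.closure {π a, π b} = ⊤ := by
      rw [← Set.image_pair, ← MonoidHom.map_closure, hg]
      exact Subgroup.map_top_of_surjective _ (QuotientGroup.mk'_surjective _)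
    refine ⟨⟨fun x y => ?_⟩⟩
    refine Subgroup.closure_le_centralizer_centralizer {π a, π b} (by simp [e2]) x ?_
    refine Subgroup.mem_centralizer_iff.2 fun s hs => ?_
    refine (Subgroup.closure_le_centralizer_centralizer {π a, π b} (by simp [e2]) s ?_)
    rcases hs with rfl | rfl <;> rintro _ (rfl | rfl) <;> simp [e]
  obtain ⟨d, hd, i, j, rfl⟩ := nf z
  have := congrArg W.g hz
  rw [map_mul, mul_g, g0 d hd, g1, zero_add, one_g] at this
  obtain ⟨rfl, rfl⟩ := Prod.mk.inj this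
  simp only [zpow_zero, mul_one] at hz ⊢
  obtain ⟨_, ⟨p, rfl⟩, rfl⟩ := k1 (k2 hd)
  have h1 : p.toAdd * (1 - X (0, 1)) = 0 :=
    (DFunLike.congr_fun t2 p.toAdd).symm.trans (congrArg W.m hz)
  obtain rfl : p = 1 := (mul_eq_zero.1 h1).resolve_right Y_ne
  simp

theorem center2 {G : Type} [Group G] (hm : ∀ x y z w : G, ⁅⁅x, y⁆, ⁅z, w⁆⁆ = 1) {a b : G}
    (ρ : G →* W) (ha : ρ a = α) (hb : ρ b = β) {z : G} (hz : z ∈ Subgroup.closure {a, b})
    (h1 : Commute z a) (h2 : Commute z b) : z = 1 := by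
  have := magnus (G := Subgroup.closure {a, b}) (fun x y z w => Subtype.ext (hm _ _ _ _))
    (a := ⟨a, Subgroup.subset_closure (by simp)⟩) (b := ⟨b, Subgroup.subset_closure (by simp)⟩)
    (by
      rw [← Subgroup.closure_closure_coe_preimage]
      congr 1; ext x; simp [Subtype.ext_iff])
    (ρ.comp (Subgroup.subtype _)) ha hb (z := ⟨z, hz⟩)
    (W_center (ha ▸ h1.map ρ) (hb ▸ h2.map ρ))
  exact Subtype.ext_iff.1 this

end Pool.Agent.H.MP_5cf697_lc
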